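import Pool.Agent.U84.MV2.ZC

set_option autoImplicit false

/-!
# Project MV2, package SC: `S - S * hat` is the local sum over the zeros
-/

namespace Pool.Agent.U84.MV2

open MeasureTheory Filter Topology Set Complex Pool.Agent.U398.MV

noncomputable section

theorem ae_noOrd : ∀ᵐ t : ℝ, NoOrd t := by
  have h1 : {z : ℂ | riemannZeta z = 0}.Countable := by
    have h2 : {z : ℂ | riemannZeta z = 0} ⊆
        ⋃ n : ℕ, (Metric.closedBall (0 : ℂ) n ∩ riemannZetaZeros) := by
      intro z hz
      obtain ⟨n, hn⟩ := exists_nat_ge ‖z‖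
      exact mem_iUnion.2 ⟨n, by simpa using hn, hz⟩
    refine Countable.mono h2 (countable_iUnion fun n => ?_)
    exact ((isCompact_closedBall (0 : ℂ) n).inter_riemannZetaZeros_finite).countable
  have h2 : (Complex.im '' {z : ℂ | riemannZeta z = 0}).Countable := h1.image _
  filter_upwards [h2.ae_notMem (volume : Measure ℝ)] with t ht x hx
  exact ht ⟨(x : ℂ) + t * I, hx, by simp⟩

/-- the zeros near the height `t` -/
def Zn (t : ℝ) : Set ℂ :=
  {s : ℂ | riemannZeta s = 0 ∧ 0 < s.re ∧ s.re < 1 ∧ t - 1 ≤ s.im ∧ s.im ≤ t + 1}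

theorem Zn_fin (t : ℝ) : (Zn t).Finite := by
  have h := ((isCompact_Icc (a := (0 : ℝ)) (b := 1)).reProdIm
    (isCompact_Icc (a := t - 1) (b := t + 1))).inter_riemannZetaZeros_finite
  refine h.subset ?_
  rintro s ⟨h0, h1, h2, h3, h4⟩
  exact ⟨⟨⟨h1.le, h2.le⟩, ⟨h3, h4⟩⟩, h0⟩

/-- the multiplicity -/
abbrev mu (s : ℂ) : ℝ := (analyticOrderNatAt riemannZeta s : ℝ)

theorem Nz_eq {t a b : ℝ} (ha : t - 1 ≤ a) (hb : b ≤ t + 1) :
    (Nz a b : ℝ) = ∑ s ∈ (Zn_fin t).toFinset, mu s * (if a < s.im ∧ s.im ≤ b then 1 else 0) := by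
  classical
  have h1 : {s : ℂ | riemannZeta s = 0 ∧ 0 < s.re ∧ s.re < 1 ∧ a < s.im ∧ s.im ≤ b} =
      ↑((Zn_fin t).toFinset.filter (fun s => a < s.im ∧ s.im ≤ b)) := by
    ext s
    simp only [mem_ofPred_eq, Finset.coe_filter, Finite.mem_toFinset, Zn]
    constructor
    · rintro ⟨h0, h1, h2, h3, h4⟩
      exact ⟨⟨h0, h1, h2, by linarith, by linarith⟩, h3, h4⟩
    · rintro ⟨⟨h0, h1, h2, -, -⟩, h3, h4⟩
      exact ⟨h0, h1, h2, h3, h4⟩
  unfold Nz
  rw [h1, finsum_mem_coe_finset, Finset.sum_filter, Nat.cast_sum]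
  refine Finset.sum_congr rfl fun s _ => ?_
  by_cases h : a < s.im ∧ s.im ≤ b
  · rw [if_pos h, if_pos h, mul_one]
  · rw [if_neg h, if_neg h, mul_zero, Nat.cast_zero]

/-- the step function of one zero -/
def hv (x y : ℝ) : ℝ :=
  if 0 < y then (if 0 ≤ x ∧ x < y then 1 else 0) else -(if x < 0 ∧ y ≤ x then 1 else 0)

theorem hv_meas (x : ℝ) : Measurable (hv x) := by
  unfold hv
  refine Measurable.ite measurableSet_Ioi (Measurable.ite ?_ measurable_const measurable_const)
    ((Measurable.ite ?_ measurable_const measurable_const).neg)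
  · exact (MeasurableSet.const _).inter measurableSet_Ioi
  · exact (MeasurableSet.const _).inter measurableSet_Iic

theorem hv_le (x y : ℝ) : |hv x y| ≤ 1 := by
  unfold hv
  split_ifs <;> norm_num

/-- the hat function -/
def hat (y : ℝ) : ℝ := 1 - |y|

theorem hat_cont : Continuous hat := by unfold hat; fun_prop

theorem hat_abs {y : ℝ} (hy : y ∈ Set.uIoc (-1 : ℝ) 1) : |hat y| ≤ 1 := by
  rw [Set.uIoc_of_le (by norm_num)] at hy
  unfold hat
  rw [abs_le]
  have h1 : |y| ≤ 1 := abs_le.2 ⟨hy.1.le, hy.2⟩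
  constructor <;> linarith [abs_nonneg y]

theorem ii_mul {f : ℝ → ℝ} (hf : Measurable f) (C : ℝ) (h : ∀ y, |f y| ≤ C) (a b : ℝ) :
    IntervalIntegrable (fun y => hat y * f y) volume a b := by
  have h1 : IntervalIntegrable f volume a b := by
    refine (intervalIntegrable_const (c := C)).mono_fun' hf.aestronglyMeasurable ?_
    exact Eventually.of_forall fun y => h y
  exact h1.continuousOn_mul hat_cont.continuousOn

theorem int_hv (x : ℝ) : ∫ y in (-1 : ℝ)..1, hat y * hv x y = gg x := by
  have hi : ∀ a b : ℝ, IntervalIntegrable (fun y => hat y * hv x y) volume a b :=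
    ii_mul (hv_meas x) 1 (hv_le x)
  have hpos : ∀ x y : ℝ, 0 ≤ x → x < y → hv x y = 1 := fun x y h0 h => by
    unfold hv
    rw [if_pos (h0.trans_lt h), if_pos ⟨h0, h⟩]
  have hpos0 : ∀ x y : ℝ, 0 ≤ x → y ≤ x → hv x y = 0 := fun x y h0 h => by
    unfold hv
    rw [if_neg (not_and_of_not_right _ (not_lt.2 h)), if_neg (not_and_of_not_left _ (not_lt.2 h0))]
    simp
  have hneg : ∀ x y : ℝ, x < 0 → y ≤ x → hv x y = -1 := fun x y h0 h => by
    unfold hv
    rw [if_neg (not_lt.2 (h.trans h0.le)), if_pos ⟨h0, h⟩]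
  have hneg0 : ∀ x y : ℝ, x < 0 → x < y → hv x y = 0 := fun x y h0 h => by
    unfold hv
    rw [if_neg (not_and_of_not_left _ (not_le.2 h0)), if_neg (not_and_of_not_right _ (not_le.2 h))]
    simp
  rcases le_or_gt 0 x with h0 | h0
  · rw [gg, if_pos h0]
    rcases le_or_gt 1 x with h1 | h1
    · rw [max_eq_left (by linarith)]
      have : ∫ y in (-1 : ℝ)..1, hat y * hv x y = ∫ y in (-1 : ℝ)..1, (0 : ℝ) := by
        refine intervalIntegral.integral_congr fun y hy => ?_
        rw [uIcc_of_le (by norm_num)] at hy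
        show hat y * hv x y = 0
        rw [hpos0 x y h0 (hy.2.trans h1), mul_zero]
      rw [this]
      simp
    · rw [max_eq_right (by linarith), ← intervalIntegral.integral_add_adjacent_intervals (hi (-1) x) (hi x 1)]
      have e1 : ∫ y in (-1 : ℝ)..x, hat y * hv x y = ∫ y in (-1 : ℝ)..x, (0 : ℝ) := by
        refine intervalIntegral.integral_congr fun y hy => ?_
        rw [uIcc_of_le (by linarith)] at hy
        show hat y * hv x y = 0
        rw [hpos0 x y h0 hy.2, mul_zero]
      have e2 : ∫ y in x..1, hat y * hv x y = ∫ y in x..1, (1 - y) := by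
        refine intervalIntegral.integral_congr_ae (Eventually.of_forall fun y hy => ?_)
        rw [uIoc_of_le h1.le] at hy
        rw [hpos x y h0 hy.1, mul_one, hat, abs_of_pos (h0.trans_lt hy.1)]
      rw [e1, e2]
      simp only [intervalIntegral.integral_zero, zero_add]
      rw [intervalIntegral.integral_sub (by simp) (by simp)]
      simp only [intervalIntegral.integral_const, integral_id, smul_eq_mul]
      ring
  · rw [gg, if_neg (not_le.2 h0)]
    rcases le_or_gt x (-1) with h1 | h1
    · rw [max_eq_left (by linarith)]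
      have : ∫ y in (-1 : ℝ)..1, hat y * hv x y = ∫ y in (-1 : ℝ)..1, (0 : ℝ) := by
        refine intervalIntegral.integral_congr_ae (Eventually.of_forall fun y hy => ?_)
        rw [uIoc_of_le (by norm_num)] at hy
        rw [hneg0 x y h0 (h1.trans_lt hy.1), mul_zero]
      rw [this]
      simp
    · rw [max_eq_right (by linarith), ← intervalIntegral.integral_add_adjacent_intervals (hi (-1) x) (hi x 1)]
      have e1 : ∫ y in (-1 : ℝ)..x, hat y * hv x y = ∫ y in (-1 : ℝ)..x, (-(1 + y)) := by
        refine intervalIntegral.integral_congr fun y hy => ?_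
        rw [uIcc_of_le (by linarith)] at hy
        show hat y * hv x y = -(1 + y)
        rw [hneg x y h0 hy.2, hat, abs_of_nonpos (by linarith [hy.2])]
        ring
      have e2 : ∫ y in x..1, hat y * hv x y = ∫ y in x..1, (0 : ℝ) := by
        refine intervalIntegral.integral_congr_ae (Eventually.of_forall fun y hy => ?_)
        rw [uIoc_of_le (by linarith)] at hy
        rw [hneg0 x y h0 hy.1, mul_zero]
      rw [e1, e2]
      simp only [intervalIntegral.integral_zero, add_zero, intervalIntegral.integral_neg]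
      rw [intervalIntegral.integral_add (by simp) (by simp)]
      simp only [intervalIntegral.integral_const, integral_id, smul_eq_mul]
      ring

theorem int_hat : ∫ y in (-1 : ℝ)..1, hat y = 1 := by
  have hi : ∀ a b : ℝ, IntervalIntegrable hat volume a b := fun a b => hat_cont.intervalIntegrable a b
  rw [← intervalIntegral.integral_add_adjacent_intervals (hi (-1) 0) (hi 0 1)]
  have e1 : ∫ y in (-1 : ℝ)..0, hat y = ∫ y in (-1 : ℝ)..0, (1 + y) := by
    refine intervalIntegral.integral_congr fun y hy => ?_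
    rw [uIcc_of_le (by linarith)] at hy
    simp only [hat]
    rw [abs_of_nonpos hy.2]
    ring
  have e2 : ∫ y in (0 : ℝ)..1, hat y = ∫ y in (0 : ℝ)..1, (1 - y) := by
    refine intervalIntegral.integral_congr fun y hy => ?_
    rw [uIcc_of_le (by linarith)] at hy
    simp only [hat]
    rw [abs_of_nonneg hy.1]
  rw [e1, e2, intervalIntegral.integral_add (by simp) (by simp), intervalIntegral.integral_sub (by simp) (by simp)]
  simp only [intervalIntegral.integral_const, integral_id, smul_eq_mul]
  norm_num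

/-- the logarithmic derivative of the gamma factor on the critical line -/
def phi (y : ℝ) : ℝ := (logDeriv Gammaℝ ⟨1 / 2, y⟩).re

theorem phi_cont : Continuous phi := by
  refine continuous_re.comp ?_
  rw [continuous_iff_continuousAt]
  intro y
  exact ContinuousAt.comp (f := fun y : ℝ => (⟨1 / 2, y⟩ : ℂ))
    (ldG_cont (by show (0 : ℝ) < 1 / 2; norm_num)) (vline_cont (1 / 2)).continuousAt

theorem phi_eq (y : ℝ) : phi y = (logDeriv Gammaℝ ((1 / 2 : ℂ) + y * I)).re := by
  unfold phi
  congr 2
  apply Complex.ext <;> simp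

/-- the local sum -/
def sN (t y : ℝ) : ℝ := ∑ s ∈ (Zn_fin t).toFinset, mu s * hv (t - s.im) y

theorem key {t y : ℝ} (ht : 1 < t) (hy : y ∈ Set.uIoc (-1 : ℝ) 1) (h1 : NoOrd t) (h2 : NoOrd (t - y))
    (hy0 : y ≠ 0) : pS (t - y) = pS t - sN t y + 1 / Real.pi * ∫ v in (t - y)..t, phi v := by
  rw [Set.uIoc_of_le (by norm_num)] at hy
  have hpS : ∀ t : ℝ, pS t = 1 / Real.pi * piS t := fun t => rfl
  have hpi := Real.pi_ne_zero
  have key2 : piS t - piS (t - y) = Real.pi * sN t y - ∫ v in (t - y)..t, phi v := by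
    rcases lt_or_gt_of_ne hy0 with h | h
    · have h3 := count2 (t := t) (u := t - y) (by linarith) (by linarith) h1 h2
      rw [Nz_eq (t := t) (by linarith) (by linarith [hy.1])] at h3
      have h4 : sN t y = -∑ s ∈ (Zn_fin t).toFinset, mu s * (if t < s.im ∧ s.im ≤ t - y then 1 else 0) := by
        unfold sN
        rw [← Finset.sum_neg_distrib]
        refine Finset.sum_congr rfl fun s _ => ?_
        unfold hv
        rw [if_neg (not_lt.2 h.le)]
        have : (t - s.im < 0 ∧ y ≤ t - s.im) ↔ (t < s.im ∧ s.im ≤ t - y) := by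
          constructor
          · rintro ⟨a, b⟩
            exact ⟨by linarith, by linarith⟩
          · rintro ⟨a, b⟩
            exact ⟨by linarith, by linarith⟩
        rw [if_congr this rfl rfl, mul_neg]
      have h5 : ∫ v in (t - y)..t, phi v = -∫ v in t..(t - y), phi v := intervalIntegral.integral_symm _ _
      have h6 : ∫ y in t..(t - y), (logDeriv Gammaℝ ⟨1 / 2, y⟩).re = ∫ v in t..(t - y), phi v := rfl
      rw [h4, h5]
      rw [h6] at h3
      linarith
    · have h3 := count2 (t := t - y) (u := t) (by linarith [hy.2]) (by linarith) h2 h1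
      rw [Nz_eq (t := t) (by linarith [hy.2]) (by linarith)] at h3
      have h4 : sN t y = ∑ s ∈ (Zn_fin t).toFinset, mu s * (if t - y < s.im ∧ s.im ≤ t then 1 else 0) := by
        unfold sN
        refine Finset.sum_congr rfl fun s _ => ?_
        unfold hv
        rw [if_pos h]
        have : (0 ≤ t - s.im ∧ t - s.im < y) ↔ (t - y < s.im ∧ s.im ≤ t) := by
          constructor
          · rintro ⟨a, b⟩
            exact ⟨by linarith, by linarith⟩
          · rintro ⟨a, b⟩
            exact ⟨by linarith, by linarith⟩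
        rw [if_congr this rfl rfl]
      have h6 : ∫ y in (t - y)..t, (logDeriv Gammaℝ ⟨1 / 2, y⟩).re = ∫ v in (t - y)..t, phi v := rfl
      rw [h4]
      rw [h6] at h3
      linarith
  rw [hpS, hpS]
  have h7 : piS (t - y) = piS t - Real.pi * sN t y + ∫ v in (t - y)..t, phi v := by linarith
  rw [h7]
  field_simp

theorem sum_gg (t : ℝ) (ht : 1 < t) :
    (∑ᶠ s ∈ {s : ℂ | riemannZeta s = 0 ∧ 0 < s.re ∧ s.re < 1 ∧ 0 < s.im},
        (analyticOrderNatAt riemannZeta s : ℝ) * gg (t - s.im)) =
      ∑ s ∈ (Zn_fin t).toFinset, mu s * gg (t - s.im) := by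
  refine finsum_mem_eq_sum_of_inter_support_eq _ ?_
  ext s
  simp only [mem_inter_iff, mem_ofPred_eq, Function.mem_support, Finite.coe_toFinset, Zn]
  constructor
  · rintro ⟨⟨h0, h1, h2, h3⟩, h4⟩
    have h5 : gg (t - s.im) ≠ 0 := fun h => h4 (by rw [h, mul_zero])
    refine ⟨⟨h0, h1, h2, ?_, ?_⟩, h4⟩
    · by_contra hc
      apply h5
      rw [gg, if_pos (by linarith), max_eq_left (by linarith)]
      norm_num
    · by_contra hc
      apply h5
      rw [gg, if_neg (by linarith), max_eq_left (by linarith)]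
      norm_num
  · rintro ⟨⟨h0, h1, h2, h3, h4⟩, h5⟩
    exact ⟨⟨h0, h1, h2, by linarith⟩, h5⟩

theorem main_eq {t : ℝ} (ht : 1 < t) (h1 : NoOrd t) (h2 : ∀ᵐ y : ℝ, NoOrd (t - y)) :
    pS t - (∫ y in (-1 : ℝ)..1, (1 - |y|) * pS (t - y)) -
      ∑ᶠ s ∈ {s : ℂ | riemannZeta s = 0 ∧ 0 < s.re ∧ s.re < 1 ∧ 0 < s.im},
        (analyticOrderNatAt riemannZeta s : ℝ) * gg (t - s.im) =
    -(1 / Real.pi * ∫ y in (-1 : ℝ)..1, hat y * ∫ v in (t - y)..t, phi v) := by
  have hG : Continuous fun y : ℝ => ∫ v in (t - y)..t, phi v := by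
    have h3 : Continuous fun b : ℝ => ∫ v in t..b, phi v :=
      intervalIntegral.continuous_primitive (fun a b => phi_cont.intervalIntegrable a b) t
    have h4 : (fun y : ℝ => ∫ v in (t - y)..t, phi v) = fun y : ℝ => -∫ v in t..(t - y), phi v := by
      funext y
      exact intervalIntegral.integral_symm _ _
    rw [h4]
    exact (h3.comp (continuous_const.sub continuous_id)).neg
  have hs : ∀ s : ℂ, IntervalIntegrable (fun y => mu s * (hat y * hv (t - s.im) y)) volume (-1) 1 :=
    fun s => (ii_mul (hv_meas _) 1 (hv_le _) _ _).const_mul _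
  have hsum : (fun y => hat y * sN t y) = fun y => ∑ s ∈ (Zn_fin t).toFinset, mu s * (hat y * hv (t - s.im) y) := by
    funext y
    unfold sN
    rw [Finset.mul_sum]
    exact Finset.sum_congr rfl fun s _ => by ring
  have hsi : IntervalIntegrable (fun y => hat y * sN t y) volume (-1) 1 := by
    rw [hsum]
    have h3 := IntervalIntegrable.sum (Zn_fin t).toFinset fun s (_ : s ∈ (Zn_fin t).toFinset) => hs s
    rwa [Finset.sum_fn] at h3
  have hsv : ∫ y in (-1 : ℝ)..1, hat y * sN t y = ∑ s ∈ (Zn_fin t).toFinset, mu s * gg (t - s.im) := by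
    rw [hsum, intervalIntegral.integral_finsetSum fun s _ => hs s]
    refine Finset.sum_congr rfl fun s _ => ?_
    rw [intervalIntegral.integral_const_mul, int_hv]
  have hae : ∫ y in (-1 : ℝ)..1, (1 - |y|) * pS (t - y) =
      ∫ y in (-1 : ℝ)..1, (hat y * pS t - hat y * sN t y + 1 / Real.pi * (hat y * ∫ v in (t - y)..t, phi v)) := by
    refine intervalIntegral.integral_congr_ae ?_
    have h0 : ∀ᵐ y : ℝ, y ≠ 0 := by
      have := (countable_singleton (0 : ℝ)).ae_notMem (volume : Measure ℝ)
      filter_upwards [this] with y hy h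
      exact hy h
    filter_upwards [h2, h0] with y h3 h4 h5
    rw [key ht h5 h1 h3 h4]
    show hat y * _ = _
    ring
  rw [hae, intervalIntegral.integral_add, intervalIntegral.integral_sub, intervalIntegral.integral_mul_const,
    intervalIntegral.integral_const_mul, int_hat, hsv, sum_gg t ht]
  · ring
  · exact (hat_cont.mul continuous_const).intervalIntegrable _ _
  · exact hsi
  · exact ((hat_cont.mul continuous_const).intervalIntegrable _ _).sub hsi
  · exact (continuous_const.mul (hat_cont.mul hG)).intervalIntegrable _ _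

/-- **package SC** -/
theorem t_SC : S_TG → S_SC := by
  rintro ⟨C, hC, hTG⟩
  refine ⟨2 * C, 10, by positivity, le_refl _, fun T hT => ?_⟩
  filter_upwards [ae_noOrd] with t ht ht1 ht2
  have hT0 : 0 < T := by linarith
  have h2 : ∀ᵐ y : ℝ, NoOrd (t - y) := by
    have h3 : MeasurePreserving (fun y : ℝ => t - y) volume volume :=
      Measure.measurePreserving_sub_left volume t
    exact h3.quasiMeasurePreserving.ae ae_noOrd
  have hm := main_eq (by linarith) ht h2
  simp only [mem_ofPred_eq] at hm
  rw [hm, abs_neg, abs_mul]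
  -- the gamma part
  set E : ℝ → ℝ := fun y => ∫ v in (t - y)..t, (phi v - phi t) with hE
  have hG : ∀ y : ℝ, ∫ v in (t - y)..t, phi v = y * phi t + E y := by
    intro y
    rw [hE]
    simp only
    rw [intervalIntegral.integral_sub (phi_cont.intervalIntegrable _ _) intervalIntegrable_const,
      intervalIntegral.integral_const, smul_eq_mul]
    ring
  have hEc : Continuous E := by
    have h3 : Continuous fun b : ℝ => ∫ v in t..b, (phi v - phi t) :=
      intervalIntegral.continuous_primitive (fun a b => (phi_cont.sub continuous_const).intervalIntegrable a b) t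
    have h4 : E = fun y : ℝ => -∫ v in t..(t - y), (phi v - phi t) := by
      funext y
      exact intervalIntegral.integral_symm _ _
    rw [h4]
    exact (h3.comp (continuous_const.sub continuous_id)).neg
  have hodd : ∫ y in (-1 : ℝ)..1, hat y * (y * phi t) = 0 := by
    have h3 := intervalIntegral.integral_comp_neg (a := (-1 : ℝ)) (b := 1) (fun y : ℝ => hat y * (y * phi t))
    rw [neg_neg] at h3
    have h4 : ∫ y in (-1 : ℝ)..1, hat (-y) * (-y * phi t) = -∫ y in (-1 : ℝ)..1, hat y * (y * phi t) := by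
      rw [← intervalIntegral.integral_neg]
      refine intervalIntegral.integral_congr fun y _ => ?_
      simp only [hat, abs_neg]
      ring
    rw [h4] at h3
    linarith
  have hsplit : ∫ y in (-1 : ℝ)..1, hat y * ∫ v in (t - y)..t, phi v = ∫ y in (-1 : ℝ)..1, hat y * E y := by
    have h3 : ∫ y in (-1 : ℝ)..1, hat y * ∫ v in (t - y)..t, phi v =
        ∫ y in (-1 : ℝ)..1, (hat y * (y * phi t) + hat y * E y) := by
      refine intervalIntegral.integral_congr fun y _ => ?_
      show (hat y * ∫ v in (t - y)..t, phi v) = hat y * (y * phi t) + hat y * E y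
      rw [hG]
      ring
    rw [h3, intervalIntegral.integral_add, hodd, zero_add]
    · exact (hat_cont.mul (continuous_id.mul continuous_const)).intervalIntegrable _ _
    · exact (hat_cont.mul hEc).intervalIntegrable _ _
  have hEb : ∀ y ∈ Set.uIoc (-1 : ℝ) 1, ‖E y‖ ≤ C / T := by
    intro y hy
    rw [Set.uIoc_of_le (by norm_num)] at hy
    have hy1 : |y| ≤ 1 := abs_le.2 ⟨hy.1.le, hy.2⟩
    have h3 : ∀ v ∈ Set.uIoc (t - y) t, ‖phi v - phi t‖ ≤ C / T := by
      intro v hv
      have h4 : |v - t| ≤ |y| := by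
        rcases le_or_gt 0 y with h | h
        · rw [Set.uIoc_of_le (by linarith)] at hv
          rw [abs_of_nonneg h, abs_of_nonpos (by linarith [hv.2])]
          linarith [hv.1]
        · rw [Set.uIoc_of_ge (by linarith)] at hv
          rw [abs_of_neg h, abs_of_pos (by linarith [hv.1])]
          linarith [hv.2]
      have h5 := abs_le.1 (h4.trans hy1)
      have h6 := hTG T hT v t (by linarith [h5.1]) (by linarith [h5.2]) (by linarith) (by linarith)
      rw [Real.norm_eq_abs, phi_eq, phi_eq]
      refine h6.trans ?_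
      have h7 : 0 ≤ C / T := by positivity
      nlinarith [h4.trans hy1]
    have h8 := intervalIntegral.norm_integral_le_of_norm_le_const h3
    refine h8.trans ?_
    have h9 : |t - (t - y)| ≤ 1 := by
      have : t - (t - y) = y := by ring
      rw [this]
      exact hy1
    have h7 : 0 ≤ C / T := by positivity
    nlinarith
  have hfin : |∫ y in (-1 : ℝ)..1, hat y * E y| ≤ 2 * (C / T) := by
    have h3 := intervalIntegral.norm_integral_le_of_norm_le_const (a := (-1 : ℝ)) (b := 1) (C := C / T)
      (f := fun y => hat y * E y) (fun y hy => by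
        rw [norm_mul, Real.norm_eq_abs]
        have h4 := hat_abs hy
        have h5 := hEb y hy
        have h6 : 0 ≤ ‖E y‖ := norm_nonneg _
        nlinarith [abs_nonneg (hat y)])
    rw [Real.norm_eq_abs] at h3
    refine h3.trans (le_of_eq ?_)
    norm_num
    ring
  rw [hsplit]
  have hpi1 : |1 / Real.pi| ≤ 1 := by
    rw [abs_of_pos (by positivity), div_le_one Real.pi_pos]
    linarith [Real.pi_gt_three]
  calc |1 / Real.pi| * |∫ y in (-1 : ℝ)..1, hat y * E y| ≤ 1 * (2 * (C / T)) :=
        mul_le_mul hpi1 hfin (abs_nonneg _) zero_le_one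
    _ = 2 * C / T := by ring

end

end Pool.Agent.U84.MV2
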