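import Pool.Agent.U398.MV.Stm2
import Pool.Agent.H370R2.Rect

set_option autoImplicit false

/-!
Light copy of `Pool.Agent.U761.SZ.ZC` and of `count2` from `ZC2` (author of the proofs: helper761): the
number of zeros between two heights and the argument.
-/

namespace Pool.Agent.U84.MV2

open Filter Topology MeasureTheory Complex Set Pool.Agent

noncomputable section

/-- `π S(t)` -/
def piS (t : ℝ) : ℝ := (∫ u in (0 : ℝ)..t, (logDeriv riemannZeta ((2 : ℂ) + u * I)).re) -
  ∫ x in (1 / 2 : ℝ)..2, (logDeriv riemannZeta ((x : ℂ) + t * I)).im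

/-- the completed zeta function -/
abbrev XL : ℂ → ℂ := completedRiemannZeta

theorem GR_conj (s : ℂ) : Gammaℝ ((starRingEnd ℂ) s) = (starRingEnd ℂ) (Gammaℝ s) := by
  have e1 : (starRingEnd ℂ) (s / 2) = (starRingEnd ℂ) s / 2 := by
    rw [map_div₀]
    congr 1
    exact Complex.conj_ofNat 2
  have e2 : (starRingEnd ℂ) (-s / 2) = -(starRingEnd ℂ) s / 2 := by
    rw [map_div₀, map_neg]
    congr 1
    exact Complex.conj_ofNat 2
  have e3 : (Real.pi : ℂ) ^ (-(starRingEnd ℂ) s / 2) = (starRingEnd ℂ) ((Real.pi : ℂ) ^ (-s / 2)) := by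
    rw [← e2, cpow_conj _ _ ?_]
    · simp
    · rw [Complex.arg_ofReal_of_nonneg Real.pi_pos.le]
      exact Real.pi_pos.ne
  rw [Gammaℝ_def, Gammaℝ_def, map_mul, ← Complex.Gamma_conj, e1, e3]

theorem XL_an {s : ℂ} (h : s.im ≠ 0) : AnalyticAt ℂ XL s := by
  have h0 : s ≠ 0 := fun h' => h (by rw [h']; simp)
  have h1 : s ≠ 1 := fun h' => h (by rw [h']; simp)
  refine DifferentiableOn.analyticAt (s := {0}ᶜ ∩ {1}ᶜ) (fun z hz => (differentiableAt_completedZeta hz.1 hz.2).differentiableWithinAt) ?_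
  exact (isOpen_compl_singleton.inter isOpen_compl_singleton).mem_nhds ⟨h0, h1⟩

theorem zeta_an {s : ℂ} (h : s.im ≠ 0) : AnalyticAt ℂ riemannZeta s := by
  have h1 : s ≠ 1 := fun h' => h (by rw [h']; simp)
  refine DifferentiableOn.analyticAt (s := {1}ᶜ) (fun z hz => (differentiableAt_riemannZeta hz).differentiableWithinAt) ?_
  exact isOpen_compl_singleton.mem_nhds h1

theorem GR_an {s : ℂ} (hs : 0 < s.re) : AnalyticAt ℂ Gammaℝ s := by
  have h1 : AnalyticAt ℂ (fun s => (Gammaℝ s)⁻¹) s := differentiable_Gammaℝ_inv.analyticAt s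
  have h2 := h1.inv (inv_ne_zero (Gammaℝ_ne_zero_of_re_pos hs))
  have e : (fun s => (Gammaℝ s)⁻¹)⁻¹ = Gammaℝ := by
    funext z
    simp
  rwa [e] at h2

theorem XL_eq {s : ℂ} (h : 0 < s.re) : XL s = Gammaℝ s * riemannZeta s := by
  have hs : s ≠ 0 := fun h' => by rw [h'] at h; simp at h
  have hG := Gammaℝ_ne_zero_of_re_pos h
  rw [riemannZeta_def_of_ne_zero hs]
  field_simp

theorem XL_conj (s : ℂ) : XL ((starRingEnd ℂ) s) = (starRingEnd ℂ) (XL s) := by
  by_cases h : 0 < s.re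
  · rw [XL_eq (by simpa using h), XL_eq h, GR_conj, riemannZeta_conj, map_mul]
  · have h1 : 0 < (1 - s).re := by simp; linarith
    have e1 : XL ((starRingEnd ℂ) s) = XL ((starRingEnd ℂ) (1 - s)) := by
      rw [map_sub, map_one]
      exact (completedRiemannZeta_one_sub _).symm
    have e2 : XL s = XL (1 - s) := (completedRiemannZeta_one_sub _).symm
    rw [e1, e2, XL_eq (by simpa using h1), XL_eq h1, GR_conj, riemannZeta_conj, map_mul]

theorem ldX_conj (s : ℂ) : logDeriv XL ((starRingEnd ℂ) s) = (starRingEnd ℂ) (logDeriv XL s) := by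
  have e : XL = (starRingEnd ℂ) ∘ XL ∘ (starRingEnd ℂ) := by
    funext u
    rw [Function.comp_apply, Function.comp_apply, XL_conj, Complex.conj_conj]
  have h1 : deriv XL ((starRingEnd ℂ) s) = (starRingEnd ℂ) (deriv XL s) := by
    conv_lhs => rw [e]
    rw [deriv_conj_conj, Function.comp_apply, Function.comp_apply, Complex.conj_conj]
  rw [logDeriv_apply, logDeriv_apply, h1, XL_conj, map_div₀]

theorem ldX_sub (s : ℂ) : logDeriv XL (1 - s) = -logDeriv XL s := by
  have h1 : deriv XL (1 - s) = -deriv XL s := by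
    have e : XL = fun z => XL (1 - z) := by
      funext z
      exact (completedRiemannZeta_one_sub z).symm
    have h2 : deriv XL s = deriv (fun z => XL (1 - z)) s := by rw [← e]
    rw [h2, deriv_comp_const_sub, neg_neg]
  rw [logDeriv_apply, logDeriv_apply, h1]
  have e2 : XL (1 - s) = XL s := completedRiemannZeta_one_sub s
  rw [e2, neg_div]

/-- the reflection in the critical line -/
theorem ldX_refl (x y : ℝ) : logDeriv XL ⟨1 - x, y⟩ = -(starRingEnd ℂ) (logDeriv XL ⟨x, y⟩) := by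
  rw [← ldX_conj, ← ldX_sub]
  congr 1
  apply Complex.ext <;> simp

/-- no zero of zeta has the ordinate `y` -/
def NoOrd (y : ℝ) : Prop := ∀ x : ℝ, riemannZeta ((x : ℂ) + y * I) ≠ 0

theorem mk_eq' (x y : ℝ) : (⟨x, y⟩ : ℂ) = (x : ℂ) + y * I := by apply Complex.ext <;> simp

theorem XL_ne {y : ℝ} (h : NoOrd y) (x : ℝ) : XL ⟨x, y⟩ ≠ 0 := by
  have key : ∀ x : ℝ, 0 < x → XL ⟨x, y⟩ ≠ 0 := by
    intro x hx
    rw [XL_eq (by simpa using hx)]
    refine mul_ne_zero (Gammaℝ_ne_zero_of_re_pos (by simpa using hx)) ?_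
    rw [mk_eq']
    exact h x
  by_cases hx : 0 < x
  · exact key x hx
  · have h1 := key (1 - x) (by linarith)
    have e : XL ⟨x, y⟩ = (starRingEnd ℂ) (XL ⟨1 - x, y⟩) := by
      rw [← XL_conj]
      have h2 : XL (1 - (⟨x, y⟩ : ℂ)) = XL ⟨x, y⟩ := completedRiemannZeta_one_sub _
      rw [← h2]
      congr 1
      apply Complex.ext <;> simp
    rw [e]
    intro h2
    apply h1
    simpa using h2

theorem XL_ne_right {x y : ℝ} (hx : 1 ≤ x) : XL ⟨x, y⟩ ≠ 0 := by
  rw [XL_eq (by simp; linarith)]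
  exact mul_ne_zero (Gammaℝ_ne_zero_of_re_pos (by simp; linarith)) (riemannZeta_ne_zero_of_one_le_re (by simpa using hx))

theorem XL_ne_left {x y : ℝ} (hx : x ≤ 0) : XL ⟨x, y⟩ ≠ 0 := by
  have h1 : XL ⟨1 - x, y⟩ ≠ 0 := XL_ne_right (by linarith)
  have e : XL ⟨x, y⟩ = (starRingEnd ℂ) (XL ⟨1 - x, y⟩) := by
    rw [← XL_conj]
    have h2 : XL (1 - (⟨x, y⟩ : ℂ)) = XL ⟨x, y⟩ := completedRiemannZeta_one_sub _
    rw [← h2]
    congr 1
    apply Complex.ext <;> simp
  rw [e]
  intro h2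
  apply h1
  simpa using h2

/-- the number of zeros with `t < γ < u`, with multiplicity -/
def Nz (t u : ℝ) : ℕ := ∑ᶠ s ∈ {s : ℂ | riemannZeta s = 0 ∧ 0 < s.re ∧ s.re < 1 ∧ t < s.im ∧ s.im ≤ u}, analyticOrderNatAt riemannZeta s

theorem mult_eq {s : ℂ} (h : 0 < s.re) (hi : s.im ≠ 0) : H370.mult XL s = analyticOrderNatAt riemannZeta s := by
  unfold H370.mult
  have h1 : XL =ᶠ[𝓝 s] fun z => Gammaℝ z * riemannZeta z := by
    have : {z : ℂ | 0 < z.re} ∈ 𝓝 s := (isOpen_lt continuous_const continuous_re).mem_nhds h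
    filter_upwards [this] with z hz
    exact XL_eq hz
  have h2 : analyticOrderAt XL s = analyticOrderAt (Gammaℝ * riemannZeta) s := analyticOrderAt_congr h1
  have h3 : analyticOrderAt (Gammaℝ * riemannZeta) s = analyticOrderAt Gammaℝ s + analyticOrderAt riemannZeta s :=
    analyticOrderAt_mul (GR_an h) (zeta_an hi)
  have h4 : analyticOrderAt Gammaℝ s = 0 := (GR_an h).analyticOrderAt_eq_zero.2 (Gammaℝ_ne_zero_of_re_pos h)
  unfold analyticOrderNatAt
  rw [h2, h3, h4, zero_add]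

theorem ldX_cont {x y : ℝ} (hy : y ≠ 0) (h : XL ⟨x, y⟩ ≠ 0) : ContinuousAt (logDeriv XL) ⟨x, y⟩ := by
  unfold logDeriv
  have ha := XL_an (s := ⟨x, y⟩) hy
  exact (ha.deriv.continuousAt).div ha.continuousAt h

theorem ldG_cont {s : ℂ} (h : 0 < s.re) : ContinuousAt (logDeriv Gammaℝ) s := by
  unfold logDeriv
  have ha := GR_an h
  exact (ha.deriv.continuousAt).div ha.continuousAt (Gammaℝ_ne_zero_of_re_pos h)

theorem hline_cont (y : ℝ) : Continuous fun x : ℝ => (⟨x, y⟩ : ℂ) := by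
  have : (fun x : ℝ => (⟨x, y⟩ : ℂ)) = fun x : ℝ => (x : ℂ) + y * I := by
    funext x
    exact mk_eq' x y
  rw [this]
  fun_prop

theorem vline_cont (x : ℝ) : Continuous fun y : ℝ => (⟨x, y⟩ : ℂ) := by
  have : (fun y : ℝ => (⟨x, y⟩ : ℂ)) = fun y : ℝ => (x : ℂ) + y * I := by
    funext y
    exact mk_eq' x y
  rw [this]
  fun_prop

/-- the count through the completed zeta function -/
theorem count1 {t u : ℝ} (ht : 0 < t) (htu : t < u) (h1 : NoOrd t) (h2 : NoOrd u) :
    Real.pi * (Nz t u : ℝ) = (∫ y in t..u, (logDeriv XL ⟨2, y⟩).re) + (∫ x in (1 / 2 : ℝ)..2, (logDeriv XL ⟨x, t⟩).im) -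
      ∫ x in (1 / 2 : ℝ)..2, (logDeriv XL ⟨x, u⟩).im := by
  have hu : 0 < u := ht.trans htu
  obtain ⟨hfin, hr⟩ := H370.rect_residue XL (fun _ => 1) (-1) 2 t u (by norm_num) htu
    (fun s hs => XL_an (ht.trans_le (show t ≤ s.im from hs.2.1)).ne')
    (by fun_prop) (by
      rintro s ⟨hs1, hs2⟩ h0
      rw [mem_preimage] at hs1 hs2
      refine ⟨⟨lt_of_le_of_ne hs1.1 ?_, lt_of_le_of_ne hs1.2 ?_⟩, ⟨lt_of_le_of_ne hs2.1 ?_, lt_of_le_of_ne hs2.2 ?_⟩⟩
      · intro h
        exact XL_ne_left (x := s.re) (y := s.im) (by linarith) h0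
      · intro h
        exact XL_ne_right (x := s.re) (y := s.im) (by linarith) h0
      · intro h
        rw [h] at h1
        exact XL_ne h1 s.re h0
      · intro h
        rw [← h] at h2
        exact XL_ne h2 s.re h0)
  have hsum : (∑ᶠ s ∈ {s | s ∈ Ioo (-1 : ℝ) 2 ×ℂ Ioo t u ∧ XL s = 0}, (H370.mult XL s : ℂ) * 1) = ((Nz t u : ℝ) : ℂ) := by
    have e1 : {s | s ∈ Ioo (-1 : ℝ) 2 ×ℂ Ioo t u ∧ XL s = 0} =
        {s : ℂ | riemannZeta s = 0 ∧ 0 < s.re ∧ s.re < 1 ∧ t < s.im ∧ s.im ≤ u} := by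
      ext s
      constructor
      · rintro ⟨⟨hs1, hs2⟩, h0⟩
        rw [mem_preimage] at hs1 hs2
        have hre : 0 < s.re := by
          by_contra hcon
          exact XL_ne_left (x := s.re) (y := s.im) (not_lt.1 hcon) h0
        have hz : riemannZeta s = 0 := by
          rw [XL_eq hre] at h0
          rcases mul_eq_zero.1 h0 with h3 | h3
          · exact absurd h3 (Gammaℝ_ne_zero_of_re_pos hre)
          · exact h3
        refine ⟨hz, hre, ?_, hs2.1, hs2.2.le⟩
        by_contra hcon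
        exact riemannZeta_ne_zero_of_one_le_re (not_lt.1 hcon) hz
      · rintro ⟨h0, h3, h4, h5, h6⟩
        refine ⟨⟨⟨by linarith, by linarith⟩, ⟨h5, lt_of_le_of_ne h6 ?_⟩⟩, by rw [XL_eq h3, h0, mul_zero]⟩
        intro h7
        apply h2 s.re
        rw [← h7, Complex.re_add_im]
        exact h0
    rw [e1]
    rw [e1] at hfin
    unfold Nz
    rw [finsum_mem_eq_finite_toFinset_sum _ hfin, finsum_mem_eq_finite_toFinset_sum _ hfin]
    push_cast
    refine Finset.sum_congr rfl fun s hs => ?_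
    rw [Set.Finite.mem_toFinset] at hs
    obtain ⟨-, h3, -, h5, -⟩ := hs
    rw [mult_eq h3 (ht.trans h5).ne', mul_one]
  rw [hsum] at hr
  simp only [mul_one] at hr
  have e0 : ∀ x y : ℝ, deriv XL ⟨x, y⟩ / XL ⟨x, y⟩ = logDeriv XL ⟨x, y⟩ := fun x y => rfl
  simp only [e0] at hr
  -- integrability
  have iH : ∀ y : ℝ, 0 < y → NoOrd y → ∀ a b : ℝ, IntervalIntegrable (fun x : ℝ => logDeriv XL ⟨x, y⟩) volume a b := by
    intro y hy hN a b
    refine Continuous.intervalIntegrable ?_ _ _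
    rw [continuous_iff_continuousAt]
    intro x
    exact ContinuousAt.comp (f := fun x : ℝ => (⟨x, y⟩ : ℂ)) (ldX_cont hy.ne' (XL_ne hN x)) (hline_cont y).continuousAt
  have iV : ∀ x : ℝ, (∀ y, XL ⟨x, y⟩ ≠ 0) → IntervalIntegrable (fun y : ℝ => logDeriv XL ⟨x, y⟩) volume t u := by
    intro x hx
    refine ContinuousOn.intervalIntegrable fun y hy => ?_
    rw [uIcc_of_le htu.le] at hy
    refine ContinuousAt.continuousWithinAt ?_
    exact ContinuousAt.comp (f := fun y : ℝ => (⟨x, y⟩ : ℂ)) (ldX_cont (ht.trans_le hy.1).ne' (hx y)) (vline_cont x).continuousAt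
  have i2 := iV 2 fun y => XL_ne_right (by norm_num)
  have i1 := iV (-1) fun y => XL_ne_left (by norm_num)
  have him : ∀ (f : ℝ → ℂ) (a b : ℝ), IntervalIntegrable f volume a b → (∫ x in a..b, f x).im = ∫ x in a..b, (f x).im := by
    intro f a b hf
    exact (Complex.imCLM.intervalIntegral_comp_comm hf).symm
  have hre : ∀ (f : ℝ → ℂ) (a b : ℝ), IntervalIntegrable f volume a b → (∫ x in a..b, f x).re = ∫ x in a..b, (f x).re := by
    intro f a b hf
    exact (Complex.reCLM.intervalIntegral_comp_comm hf).symm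
  have hI := congrArg Complex.im hr
  have hH : ∀ y : ℝ, 0 < y → NoOrd y → (∫ x in (-1 : ℝ)..2, logDeriv XL ⟨x, y⟩).im = 2 * ∫ x in (1 / 2 : ℝ)..2, (logDeriv XL ⟨x, y⟩).im := by
    intro y hy hN
    rw [him _ _ _ (iH y hy hN _ _)]
    have hii : ∀ a b : ℝ, IntervalIntegrable (fun x : ℝ => (logDeriv XL ⟨x, y⟩).im) volume a b := by
      intro a b
      refine Continuous.intervalIntegrable ?_ _ _
      refine continuous_im.comp ?_
      rw [continuous_iff_continuousAt]
      intro x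
      exact ContinuousAt.comp (f := fun x : ℝ => (⟨x, y⟩ : ℂ)) (ldX_cont hy.ne' (XL_ne hN x)) (hline_cont y).continuousAt
    rw [← intervalIntegral.integral_add_adjacent_intervals (hii (-1) (1 / 2)) (hii (1 / 2) 2)]
    have h3 : ∫ x in (-1 : ℝ)..(1 / 2), (logDeriv XL ⟨x, y⟩).im = ∫ x in (1 / 2 : ℝ)..2, (logDeriv XL ⟨x, y⟩).im := by
      have h4 := intervalIntegral.integral_comp_sub_left (a := (1 / 2 : ℝ)) (b := 2) (fun x : ℝ => (logDeriv XL ⟨x, y⟩).im) 1
      have h5 : (1 : ℝ) - 2 = -1 := by norm_num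
      have h6 : (1 : ℝ) - 1 / 2 = 1 / 2 := by norm_num
      rw [h5, h6] at h4
      rw [← h4]
      refine intervalIntegral.integral_congr fun x _ => ?_
      rw [ldX_refl]
      simp
    rw [h3]
    ring
  have hV : (∫ y in t..u, logDeriv XL ⟨-1, y⟩).re = -∫ y in t..u, (logDeriv XL ⟨2, y⟩).re := by
    rw [hre _ _ _ i1, ← intervalIntegral.integral_neg]
    refine intervalIntegral.integral_congr fun y _ => ?_
    have h3 : (⟨-1, y⟩ : ℂ) = ⟨1 - 2, y⟩ := by
      apply Complex.ext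
      · show (-1 : ℝ) = 1 - 2
        norm_num
      · rfl
    rw [h3, ldX_refl]
    simp
  rw [sub_im, add_im, sub_im, hH t ht h1, hH u hu h2, Complex.I_mul_im, Complex.I_mul_im, hV, hre _ _ _ i2] at hI
  have hR : (2 * (Real.pi : ℂ) * I * ((Nz t u : ℝ) : ℂ)).im = 2 * (Real.pi * (Nz t u : ℝ)) := by
    have : 2 * (Real.pi : ℂ) * I * ((Nz t u : ℝ) : ℂ) = ((2 * (Real.pi * (Nz t u : ℝ)) : ℝ) : ℂ) * I := by
      push_cast
      ring
    rw [this]
    simp
  rw [hR] at hI
  linarith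

theorem ldX_split {s : ℂ} (hs : 0 < s.re) (hi : s.im ≠ 0) (hz : riemannZeta s ≠ 0) :
    logDeriv XL s = logDeriv Gammaℝ s + logDeriv riemannZeta s := by
  have h1 : XL =ᶠ[𝓝 s] Gammaℝ * riemannZeta := by
    have : {z : ℂ | 0 < z.re} ∈ 𝓝 s := (isOpen_lt continuous_const continuous_re).mem_nhds hs
    filter_upwards [this] with z hz
    exact XL_eq hz
  have h2 : logDeriv XL s = logDeriv (Gammaℝ * riemannZeta) s := by
    rw [logDeriv_apply, logDeriv_apply, h1.deriv_eq, h1.eq_of_nhds]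
  rw [h2]
  exact logDeriv_mul s (Gammaℝ_ne_zero_of_re_pos hs) hz (GR_an hs).differentiableAt (zeta_an hi).differentiableAt

/-- the rectangle for the gamma factor -/
theorem gamma_rect {t u : ℝ} (htu : t < u) :
    (∫ y in t..u, (logDeriv Gammaℝ ⟨2, y⟩).re) + (∫ x in (1 / 2 : ℝ)..2, (logDeriv Gammaℝ ⟨x, t⟩).im) -
      (∫ x in (1 / 2 : ℝ)..2, (logDeriv Gammaℝ ⟨x, u⟩).im) = ∫ y in t..u, (logDeriv Gammaℝ ⟨1 / 2, y⟩).re := by
  have hne : ∀ s ∈ Icc (1 / 2 : ℝ) 2 ×ℂ Icc t u, 0 < s.re := fun s hs => by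
    have : (1 / 2 : ℝ) ≤ s.re := hs.1.1
    linarith
  obtain ⟨-, hr⟩ := H370.rect_residue Gammaℝ (fun _ => 1) (1 / 2) 2 t u (by norm_num) htu
    (fun s hs => GR_an (hne s hs)) (by fun_prop) (fun s hs h0 => absurd h0 (Gammaℝ_ne_zero_of_re_pos (hne s hs)))
  have hsum : (∑ᶠ s ∈ {s | s ∈ Ioo (1 / 2 : ℝ) 2 ×ℂ Ioo t u ∧ Gammaℝ s = 0}, (H370.mult Gammaℝ s : ℂ) * 1) = 0 := by
    have e1 : {s | s ∈ Ioo (1 / 2 : ℝ) 2 ×ℂ Ioo t u ∧ Gammaℝ s = 0} = ∅ := by
      ext s
      constructor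
      · rintro ⟨⟨hs1, hs2⟩, h0⟩
        rw [mem_preimage] at hs1
        exact absurd h0 (Gammaℝ_ne_zero_of_re_pos (by linarith [hs1.1]))
      · intro h
        exact absurd h (notMem_empty s)
    rw [e1, finsum_mem_empty]
  rw [hsum, mul_zero] at hr
  simp only [mul_one] at hr
  have e0 : ∀ x y : ℝ, deriv Gammaℝ ⟨x, y⟩ / Gammaℝ ⟨x, y⟩ = logDeriv Gammaℝ ⟨x, y⟩ := fun x y => rfl
  simp only [e0] at hr
  have iH : ∀ y : ℝ, IntervalIntegrable (fun x : ℝ => logDeriv Gammaℝ ⟨x, y⟩) volume (1 / 2) 2 := by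
    intro y
    refine ContinuousOn.intervalIntegrable fun x hx => ?_
    rw [uIcc_of_le (by norm_num)] at hx
    refine ContinuousAt.continuousWithinAt ?_
    exact ContinuousAt.comp (f := fun x : ℝ => (⟨x, y⟩ : ℂ)) (ldG_cont (by show 0 < x; linarith [hx.1])) (hline_cont y).continuousAt
  have iV : ∀ x : ℝ, 0 < x → IntervalIntegrable (fun y : ℝ => logDeriv Gammaℝ ⟨x, y⟩) volume t u := by
    intro x hx
    refine Continuous.intervalIntegrable ?_ _ _
    rw [continuous_iff_continuousAt]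
    intro y
    exact ContinuousAt.comp (f := fun y : ℝ => (⟨x, y⟩ : ℂ)) (ldG_cont hx) (vline_cont x).continuousAt
  have him : ∀ (f : ℝ → ℂ) (a b : ℝ), IntervalIntegrable f volume a b → (∫ x in a..b, f x).im = ∫ x in a..b, (f x).im := by
    intro f a b hf
    exact (Complex.imCLM.intervalIntegral_comp_comm hf).symm
  have hre : ∀ (f : ℝ → ℂ) (a b : ℝ), IntervalIntegrable f volume a b → (∫ x in a..b, f x).re = ∫ x in a..b, (f x).re := by
    intro f a b hf
    exact (Complex.reCLM.intervalIntegral_comp_comm hf).symm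
  have hI := congrArg Complex.im hr
  rw [sub_im, add_im, sub_im, Complex.I_mul_im, Complex.I_mul_im, him _ _ _ (iH t), him _ _ _ (iH u),
    hre _ _ _ (iV 2 (by norm_num)), hre _ _ _ (iV (1 / 2) (by norm_num)), zero_im] at hI
  linarith

/-- the exact formula for the number of zeros -/
theorem count2 {t u : ℝ} (ht : 0 < t) (htu : t < u) (h1 : NoOrd t) (h2 : NoOrd u) :
    Real.pi * (Nz t u : ℝ) = piS u - piS t + ∫ y in t..u, (logDeriv Gammaℝ ⟨1 / 2, y⟩).re := by
  have hu : 0 < u := ht.trans htu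
  rw [count1 ht htu h1 h2, ← gamma_rect htu]
  -- the vertical line
  have e1 : ∫ y in t..u, (logDeriv XL ⟨2, y⟩).re = (∫ y in t..u, (logDeriv Gammaℝ ⟨2, y⟩).re) +
      ∫ y in t..u, (logDeriv riemannZeta ⟨2, y⟩).re := by
    rw [← intervalIntegral.integral_add]
    · refine intervalIntegral.integral_congr fun y hy => ?_
      rw [uIcc_of_le htu.le] at hy
      have h3 := ldX_split (s := ⟨2, y⟩) (by show (0 : ℝ) < 2; norm_num) (ht.trans_le hy.1).ne' (riemannZeta_ne_zero_of_one_le_re (by show (1 : ℝ) ≤ 2; norm_num))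
      show (logDeriv XL ⟨2, y⟩).re = _
      rw [h3, add_re]
    · refine Continuous.intervalIntegrable ?_ _ _
      refine continuous_re.comp ?_
      rw [continuous_iff_continuousAt]
      intro y
      exact ContinuousAt.comp (f := fun y : ℝ => (⟨2, y⟩ : ℂ)) (ldG_cont (by show (0 : ℝ) < 2; norm_num)) (vline_cont 2).continuousAt
    · refine ContinuousOn.intervalIntegrable fun y hy => ?_
      rw [uIcc_of_le htu.le] at hy
      refine ContinuousAt.continuousWithinAt (continuous_re.continuousAt.comp ?_)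
      have h3 : ContinuousAt (logDeriv riemannZeta) ⟨2, y⟩ := by
        unfold logDeriv
        have ha := zeta_an (s := ⟨2, y⟩) (ht.trans_le hy.1).ne'
        exact (ha.deriv.continuousAt).div ha.continuousAt (riemannZeta_ne_zero_of_one_le_re (by show (1 : ℝ) ≤ 2; norm_num))
      exact ContinuousAt.comp (f := fun y : ℝ => (⟨2, y⟩ : ℂ)) h3 (vline_cont 2).continuousAt
  -- the horizontal lines
  have e2 : ∀ y : ℝ, 0 < y → NoOrd y → ∫ x in (1 / 2 : ℝ)..2, (logDeriv XL ⟨x, y⟩).im =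
      (∫ x in (1 / 2 : ℝ)..2, (logDeriv Gammaℝ ⟨x, y⟩).im) + ∫ x in (1 / 2 : ℝ)..2, (logDeriv riemannZeta ⟨x, y⟩).im := by
    intro y hy hN
    have hz : ∀ x : ℝ, riemannZeta ⟨x, y⟩ ≠ 0 := fun x => by rw [mk_eq']; exact hN x
    rw [← intervalIntegral.integral_add]
    · refine intervalIntegral.integral_congr fun x hx => ?_
      rw [uIcc_of_le (by norm_num)] at hx
      have h3 := ldX_split (s := ⟨x, y⟩) (by show 0 < x; linarith [hx.1]) hy.ne' (hz x)
      show (logDeriv XL ⟨x, y⟩).im = _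
      rw [h3, add_im]
    · refine ContinuousOn.intervalIntegrable fun x hx => ?_
      rw [uIcc_of_le (by norm_num)] at hx
      refine ContinuousAt.continuousWithinAt (continuous_im.continuousAt.comp ?_)
      exact ContinuousAt.comp (f := fun x : ℝ => (⟨x, y⟩ : ℂ)) (ldG_cont (by show 0 < x; linarith [hx.1])) (hline_cont y).continuousAt
    · refine ContinuousOn.intervalIntegrable fun x hx => ?_
      refine ContinuousAt.continuousWithinAt (continuous_im.continuousAt.comp ?_)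
      have h3 : ContinuousAt (logDeriv riemannZeta) ⟨x, y⟩ := by
        unfold logDeriv
        have ha := zeta_an (s := ⟨x, y⟩) hy.ne'
        exact (ha.deriv.continuousAt).div ha.continuousAt (hz x)
      exact ContinuousAt.comp (f := fun x : ℝ => (⟨x, y⟩ : ℂ)) h3 (hline_cont y).continuousAt
  have e3 : piS u - piS t = (∫ y in t..u, (logDeriv riemannZeta ⟨2, y⟩).re) + (∫ x in (1 / 2 : ℝ)..2, (logDeriv riemannZeta ⟨x, t⟩).im) -
      ∫ x in (1 / 2 : ℝ)..2, (logDeriv riemannZeta ⟨x, u⟩).im := by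
    unfold piS
    simp only [mk_eq']
    have hc : Continuous fun v : ℝ => (logDeriv riemannZeta ((2 : ℂ) + v * I)).re := by
      refine continuous_re.comp ?_
      rw [continuous_iff_continuousAt]
      intro v
      have hne : ((2 : ℂ) + v * I) ≠ 1 := fun h => by
        have := congrArg Complex.re h
        norm_num at this
      have hz : riemannZeta ((2 : ℂ) + v * I) ≠ 0 := riemannZeta_ne_zero_of_one_le_re (by simp)
      have hl : Continuous fun v : ℝ => (2 : ℂ) + v * I := by fun_prop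
      have h1 : ContinuousAt (logDeriv riemannZeta) ((2 : ℂ) + v * I) := by
        unfold logDeriv
        have ha : AnalyticAt ℂ riemannZeta ((2 : ℂ) + v * I) := by
          refine DifferentiableOn.analyticAt (s := {1}ᶜ) (fun z hz => (differentiableAt_riemannZeta hz).differentiableWithinAt) ?_
          exact isOpen_compl_singleton.mem_nhds hne
        exact (ha.deriv.continuousAt).div ha.continuousAt hz
      exact ContinuousAt.comp (f := fun v : ℝ => (2 : ℂ) + v * I) h1 hl.continuousAt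
    have h3 := intervalIntegral.integral_add_adjacent_intervals (hc.intervalIntegrable (μ := volume) 0 t) (hc.intervalIntegrable (μ := volume) t u)
    have h4 : ((2 : ℝ) : ℂ) = 2 := by norm_num
    rw [h4, ← h3]
    ring
  rw [e1, e2 t ht h1, e2 u hu h2, e3]
  ring

end

end Pool.Agent.U84.MV2
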